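import Pool.Agent.R193.MC.Main

/-!
# Two inequivalent largest circles which enclose 322 lattice points

The circles of radius `√(60125/578)` with the centres `(9/34, 9/34)` and `(1/2, 3/34)` enclose 322
lattice points each, and no larger circle encloses exactly 322 lattice points: every closed disc of
this radius contains at least 323 lattice points (this is checked on a subdivision of the triangle
`(0, 0), (1/2, 0), (1/2, 1/2)` of centres into 40 triangles; the two centres are vertices).

Each of the two circles passes through four lattice points. Two of the four points of the second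
circle have the distance `3`, while this distance does not occur for the first circle. The set of
the enclosed points of the second circle has two points of distance `√405`, while the distances of
the points enclosed by the first circle are at most `20`. Therefore neither the circles nor the sets
are equivalent under isometries which preserve the lattice.
-/

set_option autoImplicit false

namespace Pool.Agent.Results.MP_ab672e_co.TwoLargestCircles

open Pool.Agent.R193.MC

/-- The circles of radius `√(60125/578)` with the centres `(9/34, 9/34)` and `(1/2, 3/34)` are
MC-circles of 322. They are not equivalent under any isometry of the plane preserving the lattice,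
and neither are their MC-sets. -/
theorem result :
    IsMCCircle 322 !₂[(9 / 34 : ℝ), 9 / 34] √(60125 / 578) ∧
    IsMCCircle 322 !₂[(1 / 2 : ℝ), 3 / 34] √(60125 / 578) ∧
    ∀ g : E ≃ᵢ E, g '' lattice = lattice →
      g '' Metric.sphere !₂[(9 / 34 : ℝ), 9 / 34] √(60125 / 578) ≠
          Metric.sphere !₂[(1 / 2 : ℝ), 3 / 34] √(60125 / 578) ∧
      g '' (lattice ∩ Metric.ball !₂[(9 / 34 : ℝ), 9 / 34] √(60125 / 578)) ≠
          lattice ∩ Metric.ball !₂[(1 / 2 : ℝ), 3 / 34] √(60125 / 578) := by
  have e1 : (!₂[(9 / 34 : ℝ), 9 / 34] : E) = ctr 9 9 := by
    simp [ctr]
  have e2 : (!₂[(1 / 2 : ℝ), 3 / 34] : E) = ctr 17 3 := by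
    have : (1 / 2 : ℝ) = ((17 : ℤ) : ℝ) / 34 := by norm_num
    rw [this, ctr]
    norm_num
  rw [e1, e2]
  exact ⟨isMC_ctr (by norm_num) (by norm_num) (by norm_num) (by norm_num) card1,
    isMC_ctr (by norm_num) (by norm_num) (by norm_num) (by norm_num) card2,
    fun g hg => ⟨circles_differ g hg, sets_differ g⟩⟩

end Pool.Agent.Results.MP_ab672e_co.TwoLargestCircles
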